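import Pool.Agent.Helper98.Lang.Defs

/-!
# P17 DYAD: one dyadic block (MP_c307ca_nt)
-/

set_option autoImplicit false

open Finset Filter

namespace Pool.Agent.Helper98.Lang

lemma dy_mult (G : ℝ → ℝ) (ξ : ℝ) (d X : ℕ) (hd : 1 ≤ d) :
    ∑ n ∈ (Icc 1 X).filter (fun n => d ∣ n), G ((n : ℝ) * ξ)
      = ∑ m ∈ Icc 1 (X / d), G ((m : ℝ) * (d * ξ)) := by
  symm
  apply Finset.sum_bij (fun m _ => d * m)
  · intro m hm
    rw [mem_Icc] at hm
    rw [mem_filter, mem_Icc]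
    refine ⟨⟨Nat.mul_pos hd hm.1, ?_⟩, dvd_mul_right _ _⟩
    calc d * m ≤ d * (X / d) := Nat.mul_le_mul_left _ hm.2
      _ ≤ X := Nat.mul_div_le _ _
  · intro a _ b _ h
    exact Nat.eq_of_mul_eq_mul_left hd h
  · intro n hn
    rw [mem_filter, mem_Icc] at hn
    obtain ⟨⟨h1, h2⟩, m, rfl⟩ := hn
    refine ⟨m, ?_, rfl⟩
    rw [mem_Icc]
    refine ⟨?_, (Nat.le_div_iff_mul_le hd).2 (by rw [mul_comm]; exact h2)⟩
    rcases Nat.eq_zero_or_pos m with h | h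
    · rw [h, mul_zero] at h1; omega
    · exact h
  · intro m _
    push_cast
    ring_nf

lemma dy_lev {ξ : ℝ} {G : ℝ → ℝ} {c0 C δ : ℝ} {H : ℕ} (hH : 1 ≤ H) (hG0 : ∀ t, 0 ≤ G t)
    (hc0 : 1 / (H : ℝ) ≤ c0) (hc1 : c0 ≤ 3 / H)
    (hM : ∀ d M : ℕ, 1 ≤ d → |∑ n ∈ Icc 1 M, G ((n : ℝ) * (d * ξ)) - c0 * M| ≤
      C * (H : ℝ) ^ δ * (d : ℝ) ^ (1 + δ))
    {X z : ℕ} {E : ℝ} (hE0 : 0 ≤ E)
    (hE : ∀ d : ℕ, 1 ≤ d → d ≤ z ^ 2 → 3 + C * (H : ℝ) ^ δ * (d : ℝ) ^ (1 + δ) ≤ E) :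
    Lev X (fun n => G (n * ξ)) (c0 * X) E z := by
  have hH' : (1 : ℝ) ≤ H := by exact_mod_cast hH
  have hc0' : 0 ≤ c0 := le_trans (by positivity) hc0
  have hc3 : c0 ≤ 3 := hc1.trans (by
    rw [div_le_iff₀ (by linarith)]; linarith)
  refine ⟨fun n => hG0 _, by positivity, hE0, fun m h1 h2 => ?_⟩
  have hm : (0 : ℝ) < m := by exact_mod_cast h1
  simp only
  rw [dy_mult G ξ m X h1]
  have e1 := hM m (X / m) h1
  have e2 : |c0 * ((X / m : ℕ) : ℝ) - c0 * X / m| ≤ 3 := by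
    have a1 : (m : ℝ) * ((X / m : ℕ) : ℝ) ≤ X := by exact_mod_cast Nat.mul_div_le X m
    have a2 : (X : ℝ) < m * (((X / m : ℕ) : ℝ) + 1) := by
      exact_mod_cast Nat.lt_mul_div_succ X h1
    have a3 : ((X / m : ℕ) : ℝ) ≤ X / m := by
      rw [le_div_iff₀ hm]; linarith
    have a4 : (X : ℝ) / m ≤ ((X / m : ℕ) : ℝ) + 1 := by
      rw [div_le_iff₀ hm]; linarith
    have a5 : |((X / m : ℕ) : ℝ) - X / m| ≤ 1 := by
      rw [abs_le]; constructor <;> linarith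
    calc |c0 * ((X / m : ℕ) : ℝ) - c0 * X / m| = c0 * |((X / m : ℕ) : ℝ) - X / m| := by
          rw [mul_div_assoc, ← mul_sub, abs_mul, abs_of_nonneg hc0']
      _ ≤ 3 * 1 := mul_le_mul hc3 a5 (abs_nonneg _) (by norm_num)
      _ = 3 := by norm_num
  have e3 : (∑ x ∈ Icc 1 (X / m), G ((x : ℝ) * (m * ξ))) - c0 * X / m =
      ((∑ x ∈ Icc 1 (X / m), G ((x : ℝ) * (m * ξ))) - c0 * ((X / m : ℕ) : ℝ)) +
      (c0 * ((X / m : ℕ) : ℝ) - c0 * X / m) := by ring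
  rw [e3]
  refine (abs_add_le _ _).trans ?_
  have := hE m h1 h2
  linarith

open Classical in
lemma dy_count (hD : GDDM) {ξ c ε : ℝ} {N Q : ℕ} {G : ℝ → ℝ} (hG0 : ∀ t, 0 ≤ G t)
    (_ : 1 ≤ Q)
    (hG1 : ∀ a q : ℕ, Q ≤ q → q < 2 * Q →
      nd ((a : ℝ) * q * ξ) ≤ c / (q * Real.log q ^ (1 + ε)) → 1 ≤ G ((a : ℝ) * q * ξ)) :
    ({a : ℕ | N < 2 * a ∧ a ≤ N ∧ ∃ q : ℕ, Q ≤ q ∧ q < 2 * Q ∧
      nd ((a : ℝ) * q * ξ) ≤ c / (q * Real.log q ^ (1 + ε))}.ncard : ℝ)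
      ≤ ∑ n ∈ Icc 1 (2 * N * Q), G (n * ξ) * DD n := by
  set P : ℕ → Prop := fun a => N < 2 * a ∧ a ≤ N ∧ ∃ q : ℕ, Q ≤ q ∧ q < 2 * Q ∧
      nd ((a : ℝ) * q * ξ) ≤ c / (q * Real.log q ^ (1 + ε)) with hP
  set S : Finset ℕ := (Icc 1 N).filter P with hS
  have hSeq : {a : ℕ | P a} = (S : Set ℕ) := by
    ext a
    rw [Set.mem_ofPred_eq, mem_coe, hS, mem_filter, mem_Icc]
    constructor
    · intro h
      exact ⟨⟨by have := h.1; omega, h.2.1⟩, h⟩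
    · intro h; exact h.2
  have h1 : {a : ℕ | P a}.ncard = S.card := by
    rw [hSeq, Set.ncard_coe_finset]
  change (({a : ℕ | P a}.ncard : ℕ) : ℝ) ≤ _
  rw [h1]
  have h2 : (S.card : ℝ) ≤ ∑ a ∈ S, ∑ x ∈ Icc 1 (2 * N * Q), if a ∣ x then G (x * ξ) else 0 := by
    have : (S.card : ℝ) = ∑ a ∈ S, (1 : ℝ) := by simp
    rw [this]
    refine Finset.sum_le_sum fun a ha => ?_
    rw [hS, mem_filter, mem_Icc] at ha
    obtain ⟨⟨ha1, ha2⟩, -, -, q, hq1, hq2, hq3⟩ := ha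
    have hx : a * q ∈ Icc 1 (2 * N * Q) := by
      rw [mem_Icc]
      refine ⟨Nat.mul_pos ha1 (by omega), ?_⟩
      calc a * q ≤ N * (2 * Q) := Nat.mul_le_mul ha2 hq2.le
        _ = 2 * N * Q := by ring
    have h3 := Finset.single_le_sum (f := fun x : ℕ => if a ∣ x then G (x * ξ) else 0)
      (fun x _ => by
        by_cases h : a ∣ x
        · simp only [h, if_true]; exact hG0 _
        · simp only [h, if_false]; exact le_rfl) hx
    refine le_trans ?_ h3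
    simp only [dvd_mul_right, if_true]
    have := hG1 a q hq1 hq2 hq3
    push_cast
    exact this
  refine h2.trans ?_
  rw [Finset.sum_comm]
  refine Finset.sum_le_sum fun x hx => ?_
  rw [mem_Icc] at hx
  rw [← Finset.sum_filter, Finset.sum_const, nsmul_eq_mul, mul_comm]
  refine mul_le_mul_of_nonneg_left ?_ (hG0 _)
  have h4 := hD.1 x (S.filter (fun a => a ∣ x)) (by omega) ?_ ?_
  · exact_mod_cast h4
  · intro a ha
    rw [mem_filter] at ha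
    rw [Nat.mem_divisors]
    exact ⟨ha.2, by omega⟩
  · intro s hs t ht
    rw [mem_filter, hS, mem_filter] at hs ht
    have hs2 := hs.1.2.2.1
    have ht2 := ht.1.2.1
    have h5 : s ≤ 2 * t := by omega
    have h6 : (s : ℝ) ≤ 2 * t := by exact_mod_cast h5
    have h7 : (2 : ℝ) ≤ Real.exp 1 := by
      have := Real.add_one_le_exp (1 : ℝ); linarith
    have h8 : (0 : ℝ) ≤ t := by positivity
    nlinarith

/-- powers beat logarithms -/
lemma dy_log (B s r : ℝ) (hr : 0 < r) :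
    ∀ᶠ N : ℕ in atTop, B * Real.log (N : ℝ) ^ s ≤ (N : ℝ) ^ r := by
  have h1 := isLittleO_log_rpow_rpow_atTop s hr
  have h2 := h1.bound (show (0 : ℝ) < 1 / (|B| + 1) by positivity)
  have h3 : ∀ᶠ x : ℝ in atTop, B * Real.log x ^ s ≤ x ^ r := by
    filter_upwards [h2, eventually_ge_atTop (1 : ℝ)] with x hx hx1
    have hl : 0 ≤ Real.log x := Real.log_nonneg hx1
    rw [Real.norm_of_nonneg (Real.rpow_nonneg hl _),
      Real.norm_of_nonneg (Real.rpow_nonneg (by linarith) _)] at hx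
    have hB : B ≤ |B| + 1 := (le_abs_self B).trans (by linarith)
    have hB0 : 0 < |B| + 1 := by positivity
    calc B * Real.log x ^ s ≤ (|B| + 1) * Real.log x ^ s :=
          mul_le_mul_of_nonneg_right hB (Real.rpow_nonneg hl _)
      _ ≤ (|B| + 1) * (1 / (|B| + 1) * x ^ r) := mul_le_mul_of_nonneg_left hx hB0.le
      _ = x ^ r := by field_simp
  exact tendsto_natCast_atTop_atTop.eventually h3

lemma dy_pow (B r : ℝ) (hr : 0 < r) : ∀ᶠ N : ℕ in atTop, B ≤ (N : ℝ) ^ r := by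
  have := dy_log B 0 r hr
  filter_upwards [this] with N hN
  rwa [Real.rpow_zero, mul_one] at hN

/-- the numerical facts about the parameters -/
lemma dy_params {ε κ A c C : ℝ} (hε : 0 < ε) (hκ : 0 < κ) (hκA : κ ≤ A) (hc : 0 < c)
    (hC : 0 < C) (z0 : ℕ) : ∀ᶠ N : ℕ in atTop, ∀ Q : ℕ, (N : ℝ) ^ κ ≤ Q → (Q : ℝ) ≤ (N : ℝ) ^ A →
    ∃ H z : ℕ, 1 ≤ H ∧ z0 ≤ z ∧ 1 ≤ Q ∧ 3 ≤ N ∧ z ≤ N ∧ 1 ≤ z ∧
      (1 / (H : ℝ) ≤ 4 * c / (Q * Real.log Q ^ (1 + ε))) ∧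
      (c / (Q * Real.log Q ^ (1 + ε)) ≤ 1 / (2 * H)) ∧
      0 < Real.log Q ∧
      Real.log Q ^ (1 + ε) * (N : ℝ) ^ ((9 : ℝ) / 10) ≤ 4 * c * N ∧
      (κ * Real.log N) ^ (1 + ε) ≤ Real.log Q ^ (1 + ε) ∧
      (2 * N * Q ≤ z ^ (17 * (⌈A⌉₊ + 2))) ∧
      (z : ℝ) ^ 4 ≤ (N : ℝ) ^ ((1 : ℝ) / 4) ∧
      (∀ d : ℕ, 1 ≤ d → d ≤ z ^ 2 →
        3 + C * (H : ℝ) ^ (1 / (8 * (A + 2))) * (d : ℝ) ^ (1 + 1 / (8 * (A + 2))) ≤
          (N : ℝ) ^ ((1 : ℝ) / 2)) ∧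
      1 / (H : ℝ) ≥ 2 * c / (Q * Real.log Q ^ (1 + ε)) := by
  have hA : 0 < A := lt_of_lt_of_le hκ hκA
  filter_upwards [dy_pow (max z0 1) (1 / 16) (by norm_num), dy_pow 2 (1 / 272) (by norm_num),
    dy_pow (2 * c) κ hκ, dy_log (A ^ (1 + ε) / (2 * c)) (1 + ε) 1 (by norm_num),
    dy_pow 6 (1 / 2) (by norm_num), dy_pow (2 * C) (1 / 8) (by norm_num),
    dy_log (A ^ (1 + ε) / (4 * c)) (1 + ε) (1 / 10) (by norm_num), eventually_ge_atTop 3,
    (tendsto_natCast_atTop_atTop.eventually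
      (Real.tendsto_log_atTop.eventually_ge_atTop (1 / κ)))] with N h1 h2 h3 h4 h5 h6 h7 h8 h9
  intro Q hQ1 hQ2
  have hN3 : (3 : ℝ) ≤ N := by exact_mod_cast h8
  have hN0 : (0 : ℝ) < N := by linarith
  have hN1 : (1 : ℝ) ≤ N := by linarith
  have hlN : 0 < Real.log N := Real.log_pos (by linarith)
  have hNκ : (1 : ℝ) < (N : ℝ) ^ κ := Real.one_lt_rpow (by linarith) hκ
  have hQ3 : (1 : ℝ) < Q := lt_of_lt_of_le hNκ hQ1
  have hQ0 : (0 : ℝ) < Q := by linarith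
  have hQ4 : 1 ≤ Q := by exact_mod_cast hQ3.le
  have hlQ : 0 < Real.log Q := Real.log_pos hQ3
  have hlQ1 : κ * Real.log N ≤ Real.log Q := by
    have := Real.log_le_log (by positivity) hQ1
    rwa [Real.log_rpow hN0] at this
  have hlQ2 : Real.log Q ≤ A * Real.log N := by
    have := Real.log_le_log hQ0 hQ2
    rwa [Real.log_rpow hN0] at this
  have hκN : 1 ≤ κ * Real.log N := by
    have := mul_le_mul_of_nonneg_left h9 hκ.le
    rwa [mul_one_div, div_self hκ.ne'] at this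
  set L : ℝ := Real.log Q ^ (1 + ε) with hL
  have hL1 : (κ * Real.log N) ^ (1 + ε) ≤ L :=
    Real.rpow_le_rpow (by positivity) hlQ1 (by linarith)
  have hL0 : 1 ≤ L := le_trans (Real.one_le_rpow hκN (by linarith)) hL1
  have hL2 : L ≤ A ^ (1 + ε) * Real.log N ^ (1 + ε) := by
    rw [← Real.mul_rpow hA.le hlN.le]
    exact Real.rpow_le_rpow hlQ.le hlQ2 (by linarith)
  have hL3 : L ≤ 2 * c * N := by
    rw [Real.rpow_one] at h4
    have e1 : A ^ (1 + ε) / (2 * c) * Real.log N ^ (1 + ε) =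
      (A ^ (1 + ε) * Real.log N ^ (1 + ε)) / (2 * c) := by ring
    rw [e1, div_le_iff₀ (by positivity)] at h4
    linarith
  have hL4 : L ≤ 4 * c * (N : ℝ) ^ ((1 : ℝ) / 10) := by
    have e1 : A ^ (1 + ε) / (4 * c) * Real.log N ^ (1 + ε) =
      (A ^ (1 + ε) * Real.log N ^ (1 + ε)) / (4 * c) := by ring
    rw [e1, div_le_iff₀ (by positivity)] at h7
    linarith
  have hQL : 0 < Q * L := by positivity
  -- `H`
  have hx1 : 1 ≤ Q * L / (2 * c) := by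
    rw [le_div_iff₀ (by positivity), one_mul]
    calc 2 * c ≤ (N : ℝ) ^ κ := h3
      _ ≤ Q := hQ1
      _ = Q * 1 := by ring
      _ ≤ Q * L := mul_le_mul_of_nonneg_left hL0 hQ0.le
  set H : ℕ := ⌊Q * L / (2 * c)⌋₊ with hH
  have hH1 : 1 ≤ H := by
    rw [hH, Nat.one_le_floor_iff]
    exact hx1
  have hH0 : (0 : ℝ) < H := by exact_mod_cast hH1
  have hHle : (H : ℝ) ≤ Q * L / (2 * c) := Nat.floor_le (by positivity)
  have hHlt : Q * L / (2 * c) < H + 1 := Nat.lt_floor_add_one _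
  have hHge : Q * L / (4 * c) ≤ H := by
    have e1 : Q * L / (4 * c) = Q * L / (2 * c) / 2 := by ring
    have e2 : (1 : ℝ) ≤ H := by exact_mod_cast hH1
    rw [e1]; linarith
  have hHN : (H : ℝ) ≤ (N : ℝ) ^ (A + 1) := by
    rw [Real.rpow_add hN0, Real.rpow_one]
    refine hHle.trans ?_
    rw [div_le_iff₀ (by positivity)]
    calc Q * L ≤ (N : ℝ) ^ A * (2 * c * N) :=
          mul_le_mul hQ2 hL3 (by linarith) (by positivity)
      _ = (N : ℝ) ^ A * N * (2 * c) := by ring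
  -- `z`
  set z : ℕ := ⌊(N : ℝ) ^ ((1 : ℝ) / 16)⌋₊ with hz
  have hzle : (z : ℝ) ≤ (N : ℝ) ^ ((1 : ℝ) / 16) := Nat.floor_le (by positivity)
  have hz0 : z0 ≤ z := Nat.le_floor ((le_max_left _ _).trans h1)
  have hz1 : 1 ≤ z := by
    have : ((1 : ℕ) : ℝ) ≤ (N : ℝ) ^ ((1 : ℝ) / 16) := by
      push_cast; exact (le_max_right _ _).trans h1
    exact Nat.le_floor this
  have hz17 : (N : ℝ) ^ ((1 : ℝ) / 17) ≤ z := by
    have e1 : (N : ℝ) ^ ((1 : ℝ) / 16) < z + 1 := Nat.lt_floor_add_one _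
    have e2 : (N : ℝ) ^ ((1 : ℝ) / 16) = (N : ℝ) ^ ((1 : ℝ) / 17) * (N : ℝ) ^ ((1 : ℝ) / 272) := by
      rw [← Real.rpow_add hN0]; norm_num
    have e3 : (1 : ℝ) ≤ (N : ℝ) ^ ((1 : ℝ) / 17) := Real.one_le_rpow hN1 (by norm_num)
    have e4 : (N : ℝ) ^ ((1 : ℝ) / 17) * 2 ≤ (N : ℝ) ^ ((1 : ℝ) / 17) * (N : ℝ) ^ ((1 : ℝ) / 272) :=
      mul_le_mul_of_nonneg_left h2 (by linarith)
    linarith
  have hzN : z ≤ N := by
    have : (z : ℝ) ≤ N := by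
      refine hzle.trans ?_
      calc (N : ℝ) ^ ((1 : ℝ) / 16) ≤ (N : ℝ) ^ (1 : ℝ) :=
            Real.rpow_le_rpow_of_exponent_le hN1 (by norm_num)
        _ = N := Real.rpow_one _
    exact_mod_cast this
  have hz4 : (z : ℝ) ^ 4 ≤ (N : ℝ) ^ ((1 : ℝ) / 4) := by
    calc (z : ℝ) ^ 4 ≤ ((N : ℝ) ^ ((1 : ℝ) / 16)) ^ 4 :=
          pow_le_pow_left₀ (by positivity) hzle 4
      _ = (N : ℝ) ^ ((1 : ℝ) / 4) := by
          rw [← Real.rpow_natCast, ← Real.rpow_mul hN0.le]; norm_num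
  refine ⟨H, z, hH1, hz0, hQ4, h8, hzN, hz1, ?_, ?_, hlQ, ?_, hL1, ?_, hz4, ?_, ?_⟩
  · rw [div_le_div_iff₀ hH0 hQL]
    rw [div_le_iff₀ (by positivity)] at hHge
    linarith
  · rw [div_le_div_iff₀ hQL (by positivity)]
    rw [le_div_iff₀ (by positivity)] at hHle
    linarith
  · calc L * (N : ℝ) ^ ((9 : ℝ) / 10) ≤ 4 * c * (N : ℝ) ^ ((1 : ℝ) / 10) * (N : ℝ) ^ ((9 : ℝ) / 10) :=
          mul_le_mul_of_nonneg_right hL4 (by positivity)
      _ = 4 * c * ((N : ℝ) ^ ((1 : ℝ) / 10) * (N : ℝ) ^ ((9 : ℝ) / 10)) := by ring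
      _ = 4 * c * N := by
          rw [← Real.rpow_add hN0]; norm_num
  · have e1 : ((2 * N * Q : ℕ) : ℝ) ≤ (z : ℝ) ^ (17 * (⌈A⌉₊ + 2)) := by
      push_cast
      calc 2 * (N : ℝ) * Q ≤ N * N * (N : ℝ) ^ A := by
            refine mul_le_mul ?_ hQ2 hQ0.le (by positivity)
            nlinarith
        _ = (N : ℝ) ^ (A + 2) := by
            rw [Real.rpow_add hN0, Real.rpow_ofNat]; ring
        _ ≤ (N : ℝ) ^ (((⌈A⌉₊ + 2 : ℕ) : ℝ)) := by
            refine Real.rpow_le_rpow_of_exponent_le hN1 ?_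
            push_cast
            have := Nat.le_ceil A
            linarith
        _ = ((N : ℝ) ^ ((1 : ℝ) / 17)) ^ (17 * (⌈A⌉₊ + 2)) := by
            rw [← Real.rpow_natCast, ← Real.rpow_mul hN0.le]
            congr 1
            push_cast
            ring
        _ ≤ (z : ℝ) ^ (17 * (⌈A⌉₊ + 2)) := pow_le_pow_left₀ (by positivity) hz17 _
    exact_mod_cast e1
  · intro d hd1 hd2
    have hd0 : (1 : ℝ) ≤ d := by exact_mod_cast hd1
    have hδ : 1 / (8 * (A + 2)) ≤ 1 := by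
      rw [div_le_one (by positivity)]; linarith
    have e1 : (d : ℝ) ^ (1 + 1 / (8 * (A + 2))) ≤ (N : ℝ) ^ ((1 : ℝ) / 4) := by
      calc (d : ℝ) ^ (1 + 1 / (8 * (A + 2))) ≤ (d : ℝ) ^ (2 : ℝ) :=
            Real.rpow_le_rpow_of_exponent_le hd0 (by linarith)
        _ = (d : ℝ) ^ 2 := by rw [Real.rpow_ofNat]
        _ ≤ ((z : ℝ) ^ 2) ^ 2 := by
            refine pow_le_pow_left₀ (by linarith) ?_ 2
            exact_mod_cast hd2
        _ = (z : ℝ) ^ 4 := by ring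
        _ ≤ _ := hz4
    have e2 : (H : ℝ) ^ (1 / (8 * (A + 2))) ≤ (N : ℝ) ^ ((1 : ℝ) / 8) := by
      calc (H : ℝ) ^ (1 / (8 * (A + 2))) ≤ ((N : ℝ) ^ (A + 1)) ^ (1 / (8 * (A + 2))) :=
            Real.rpow_le_rpow hH0.le hHN (by positivity)
        _ = (N : ℝ) ^ ((A + 1) * (1 / (8 * (A + 2)))) := by rw [← Real.rpow_mul hN0.le]
        _ ≤ (N : ℝ) ^ ((1 : ℝ) / 8) := by
            refine Real.rpow_le_rpow_of_exponent_le hN1 ?_
            rw [mul_one_div, div_le_div_iff₀ (by positivity) (by norm_num)]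
            linarith
    have e3 : (H : ℝ) ^ (1 / (8 * (A + 2))) * (d : ℝ) ^ (1 + 1 / (8 * (A + 2))) ≤
        (N : ℝ) ^ ((1 : ℝ) / 8) * (N : ℝ) ^ ((1 : ℝ) / 4) :=
      mul_le_mul e2 e1 (by positivity) (by positivity)
    have e4 : (N : ℝ) ^ ((1 : ℝ) / 8) * ((N : ℝ) ^ ((1 : ℝ) / 8) * (N : ℝ) ^ ((1 : ℝ) / 4)) =
        (N : ℝ) ^ ((1 : ℝ) / 2) := by
      rw [← Real.rpow_add hN0, ← Real.rpow_add hN0]; norm_num
    have e5 : 2 * C * ((N : ℝ) ^ ((1 : ℝ) / 8) * (N : ℝ) ^ ((1 : ℝ) / 4)) ≤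
        (N : ℝ) ^ ((1 : ℝ) / 2) := by
      rw [← e4]
      exact mul_le_mul_of_nonneg_right h6 (by positivity)
    have e6 : C * ((H : ℝ) ^ (1 / (8 * (A + 2))) * (d : ℝ) ^ (1 + 1 / (8 * (A + 2)))) ≤
        C * ((N : ℝ) ^ ((1 : ℝ) / 8) * (N : ℝ) ^ ((1 : ℝ) / 4)) :=
      mul_le_mul_of_nonneg_left e3 hC.le
    rw [mul_assoc]
    linarith
  · rw [ge_iff_le, div_le_div_iff₀ hQL hH0]
    rw [le_div_iff₀ (by positivity)] at hHle
    linarith

/-- **P17 DYAD.** -/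
theorem dyad : GFej → GNT → GDDM → GDyad := by
  intro hF hNT hD ξ hξ ε η κ A c hε hη hκ hκA hc
  have hA : 0 < A := lt_of_lt_of_le hκ hκA
  have hδ0 : 0 < 1 / (8 * (A + 2)) := by positivity
  obtain ⟨C, hC, hFG⟩ := hF ξ hξ (1 / (8 * (A + 2))) hδ0
  obtain ⟨C1, z0, hC1, hN1⟩ := hNT (17 * (⌈A⌉₊ + 2)) η hη
  obtain ⟨N0, hN0⟩ := eventually_atTop.1 (dy_params hε hκ hκA hc hC z0)
  refine ⟨24 * c * C1 / κ ^ (1 + ε), N0, by positivity, ?_⟩
  intro N Q hNN hQ1 hQ2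
  obtain ⟨H, z, hH1, hz0, hQ, hN3, hzN, hz1, hHc, hcH, hlQ, hL9, hLκ, hX, hz4, hE, hHc2⟩ :=
    hN0 N hNN Q hQ1 hQ2
  obtain ⟨G, c0, hG0, hG3, hG1, hc01, hc02, hGM⟩ := hFG H hH1
  have hNpos : (0 : ℝ) < N := by positivity
  have hN1' : (1 : ℝ) ≤ N := by
    have : (3 : ℝ) ≤ N := by exact_mod_cast hN3
    linarith
  have hQpos : (0 : ℝ) < Q := by exact_mod_cast hQ
  have hHpos : (0 : ℝ) < H := by exact_mod_cast hH1
  set L : ℝ := Real.log Q ^ (1 + ε) with hL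
  have hLpos : 0 < L := by positivity
  have hlN : 0 < Real.log N := Real.log_pos (by
    have : (3 : ℝ) ≤ N := by exact_mod_cast hN3
    linarith)
  have hcount := dy_count hD (ξ := ξ) (c := c) (ε := ε) (N := N) (Q := Q) hG0 hQ ?_
  · refine hcount.trans ?_
    have hlev : Lev (2 * N * Q) (fun n => G (n * ξ)) (c0 * ((2 * N * Q : ℕ) : ℝ))
        ((N : ℝ) ^ ((1 : ℝ) / 2)) z :=
      dy_lev hH1 hG0 hc01 hc02 hGM (by positivity) hE
    have hYlow : (N : ℝ) ^ ((9 : ℝ) / 10) ≤ c0 * ((2 * N * Q : ℕ) : ℝ) := by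
      have e1 : 2 * c / (Q * L) * (2 * N * Q) ≤ c0 * (2 * N * Q) :=
        mul_le_mul_of_nonneg_right (hHc2.trans hc01) (by positivity)
      have e2 : 2 * c / (Q * L) * (2 * N * Q) = 4 * c * N / L := by
        field_simp
        ring
      have e3 : (N : ℝ) ^ ((9 : ℝ) / 10) ≤ 4 * c * N / L := by
        rw [le_div_iff₀ hLpos, mul_comm]; exact hL9
      push_cast
      linarith
    have h1 := hN1 z (2 * N * Q) (fun n => G (n * ξ)) (c0 * ((2 * N * Q : ℕ) : ℝ))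
      ((N : ℝ) ^ ((1 : ℝ) / 2)) hz0 hX hlev (fun n => hG3 _) ?_ ?_
    · refine h1.trans ?_
      have e1 : Real.log z ^ η ≤ Real.log N ^ η := by
        have hzr : (1 : ℝ) ≤ z := by exact_mod_cast hz1
        refine Real.rpow_le_rpow (Real.log_nonneg hzr) ?_ hη.le
        exact Real.log_le_log (by linarith) (by exact_mod_cast hzN)
      have e2 : c0 * ((2 * N * Q : ℕ) : ℝ) ≤ 24 * c * N / L := by
        have : c0 ≤ 3 * (4 * c / (Q * L)) := by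
          calc c0 ≤ 3 / H := hc02
            _ = 3 * (1 / H) := by ring
            _ ≤ _ := mul_le_mul_of_nonneg_left hHc (by norm_num)
        calc c0 * ((2 * N * Q : ℕ) : ℝ) ≤ 3 * (4 * c / (Q * L)) * ((2 * N * Q : ℕ) : ℝ) :=
              mul_le_mul_of_nonneg_right this (by positivity)
          _ = 24 * c * N / L := by
              push_cast
              field_simp
              ring
      have e3 : 24 * c * N / L ≤ 24 * c * N / (κ * Real.log N) ^ (1 + ε) :=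
        div_le_div_of_nonneg_left (by positivity) (by positivity) hLκ
      have e4 : C1 * (c0 * ((2 * N * Q : ℕ) : ℝ)) * Real.log z ^ η ≤
          C1 * (24 * c * N / (κ * Real.log N) ^ (1 + ε)) * Real.log N ^ η := by
        refine mul_le_mul (mul_le_mul_of_nonneg_left (e2.trans e3) hC1.le) e1 ?_ (by positivity)
        exact Real.rpow_nonneg (Real.log_natCast_nonneg z) _
      refine e4.trans (le_of_eq ?_)
      rw [Real.mul_rpow hκ.le hlN.le]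
      have e5 : Real.log N ^ η = Real.log N ^ (η - 1 - ε) * Real.log N ^ (1 + ε) := by
        rw [← Real.rpow_add hlN]
        congr 1
        ring
      rw [e5]
      have e6 : 0 < Real.log N ^ (1 + ε) := Real.rpow_pos_of_pos hlN _
      have e7 : 0 < κ ^ (1 + ε) := Real.rpow_pos_of_pos hκ _
      field_simp
    · refine hz4.trans (le_trans ?_ hYlow)
      exact Real.rpow_le_rpow_of_exponent_le hN1' (by norm_num)
    · calc (z : ℝ) ^ 4 * (N : ℝ) ^ ((1 : ℝ) / 2) ≤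
            (N : ℝ) ^ ((1 : ℝ) / 4) * (N : ℝ) ^ ((1 : ℝ) / 2) :=
            mul_le_mul_of_nonneg_right hz4 (by positivity)
        _ = (N : ℝ) ^ ((3 : ℝ) / 4) := by
            rw [← Real.rpow_add hNpos]; norm_num
        _ ≤ (N : ℝ) ^ ((9 : ℝ) / 10) := Real.rpow_le_rpow_of_exponent_le hN1' (by norm_num)
        _ ≤ _ := hYlow
  · intro a q hq1 hq2 hq3
    refine hG1 _ (hq3.trans (le_trans ?_ hcH))
    have hq1' : (Q : ℝ) ≤ q := by exact_mod_cast hq1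
    refine div_le_div_of_nonneg_left hc.le (by positivity) ?_
    refine mul_le_mul hq1' ?_ hLpos.le (by positivity)
    refine Real.rpow_le_rpow hlQ.le ?_ (by linarith)
    exact Real.log_le_log hQpos hq1'

end Pool.Agent.Helper98.Lang
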